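import Pool.Agent.H97.PS.Planar
import Pool.Agent.H8.PS.Plane

/-!
MP_325208 (helper97, helper8): a maximal partial spread of the projective 3-space over a field with `q` elements that is not a
spread has deficiency `d ≥ (q + 2) / 2` and `q ^ 3 < 2 d ^ 3 + d q ^ 2` (so `d > 0.5897 q`).
-/

set_option autoImplicit false

open Module Finset
open scoped Classical

namespace Pool.Agent.H97.PS

theorem stage1 {F : Type*} [Field F] [Fintype F] {V : Type*} [AddCommGroup V] [Module F V] [Fintype V]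
    [FiniteDimensional F V] (hV : finrank F V = 4) {S : Finset (Submodule F V)} (h2 : ∀ W ∈ S, finrank F W = 2)
    (hd : ∀ W ∈ S, ∀ W' ∈ S, W ≠ W' → W ⊓ W' = ⊥)
    (hmax : ∀ U : Submodule F V, finrank F U = 2 → U ∉ S → ∃ W ∈ S, U ⊓ W ≠ ⊥)
    (hh : ∃ v : V, v ≠ 0 ∧ ∀ W ∈ S, v ∉ W) {d : ℕ} (hdS : d + S.card = Fintype.card F ^ 2 + 1) :
    Fintype.card F + 2 ≤ 2 * d ∧ Fintype.card F ^ 3 < 2 * d ^ 3 + d * Fintype.card F ^ 2 := by
  have hq : 1 < Fintype.card F := Fintype.one_lt_card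
  have hm := H8.PS.main hV h2 hd hmax hh
  have hb : Fintype.card F + 2 ≤ 2 * d := by omega
  refine ⟨hb, ?_⟩
  rcases Nat.lt_or_ge d (Fintype.card F) with hdq | hdq
  · obtain ⟨B, hB⟩ := H8.PS.exists_planeData hV h2 hd hmax hh hdS hdq
    exact plane hB hq hdq.le hb
  · have h1 : Fintype.card F ^ 3 ≤ d * Fintype.card F ^ 2 := by
      rw [pow_succ, mul_comm]
      exact Nat.mul_le_mul_right _ hdq
    have hd0 : 0 < d := by omega
    have h2 : 0 < 2 * d ^ 3 := by positivity
    omega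

end Pool.Agent.H97.PS
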