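import Mathlib

set_option autoImplicit false

namespace Pool.Agent.H97.PS

variable {F : Type*} [Field F] [Finite F]

/-- The hypotheses, with `φ 0 = 0`, give `φ (-u) = - φ u`. -/
theorem odd_of_eq (φ : F → F) (h0 : φ 0 = 0) (h1 : Function.Injective φ)
    (h2 : Function.Injective fun x => x - φ x)
    (h : ∀ x a, (φ x - φ a) ^ 2 = (x - a) * (φ (a + φ x - φ a) - φ a)) (u : F) :
    φ (-u) = - φ u := by
  by_cases hu : u = 0
  · simp [hu, h0]
  set D := φ u / u with hD
  have hDu : φ u = D * u := by rw [hD]; field_simp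
  have hD0 : D ≠ 0 := by
    intro h3
    rw [h3, zero_mul] at hDu
    exact hu (h1 (hDu.trans h0.symm))
  have hD1 : 1 - D ≠ 0 := by
    intro h3
    have h4 : D = 1 := (sub_eq_zero.1 h3).symm
    rw [h4, one_mul] at hDu
    refine hu (h2 ?_)
    simp only [hDu, h0, sub_self]
  have hc : ∀ v w : F, φ v = D * v → φ w = D * w → φ ((1 - D) * v + D * w) =
      D * ((1 - D) * v + D * w) := by
    intro v w hv hw
    by_cases hvw : w = v
    · subst hvw
      have : (1 - D) * w + D * w = w := by ring
      rw [this, hv]
    · have h3 := h w v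
      rw [hv, hw] at h3
      have h4 : v + D * w - D * v = (1 - D) * v + D * w := by ring
      rw [h4] at h3
      have h5 : w - v ≠ 0 := sub_ne_zero.2 hvw
      have h6 : (w - v) * (φ ((1 - D) * v + D * w) - D * ((1 - D) * v + D * w)) = 0 := by
        have : (w - v) * (φ ((1 - D) * v + D * w) - D * ((1 - D) * v + D * w)) =
          (w - v) * (φ ((1 - D) * v + D * w) - D * v) - (D * w - D * v) ^ 2 := by ring
        rw [this, ← h3, sub_self]
      rcases mul_eq_zero.1 h6 with h7 | h7
      · exact absurd h7 h5
      · exact sub_eq_zero.1 h7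
  have hz : φ 0 = D * 0 := by rw [h0, mul_zero]
  -- the set `V_D`
  let S : Set F := {v | φ v = D * v}
  have hSf : S.Finite := Set.toFinite S
  have hmD : ∀ v ∈ S, ∃ w ∈ S, D * w = v := by
    have hmaps : Set.MapsTo (fun w => D * w) S S := by
      intro w hw
      have := hc 0 w hz hw
      simp only [mul_zero, zero_add] at this
      exact this
    have hinj : Set.InjOn (fun w => D * w) S := fun x _ y _ hxy => mul_left_cancel₀ hD0 hxy
    intro v hv
    obtain ⟨w, hw⟩ := (Finite.injective_iff_surjective.1 (hmaps.restrict_inj.2 hinj)) ⟨v, hv⟩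
    exact ⟨w.1, w.2, congrArg Subtype.val hw⟩
  have hmE : ∀ v ∈ S, ∃ w ∈ S, (1 - D) * w = v := by
    have hmaps : Set.MapsTo (fun w => (1 - D) * w) S S := by
      intro w hw
      have := hc w 0 hw hz
      simp only [mul_zero, add_zero] at this
      exact this
    have hinj : Set.InjOn (fun w => (1 - D) * w) S := fun x _ y _ hxy => mul_left_cancel₀ hD1 hxy
    intro v hv
    obtain ⟨w, hw⟩ := (Finite.injective_iff_surjective.1 (hmaps.restrict_inj.2 hinj)) ⟨v, hv⟩
    exact ⟨w.1, w.2, congrArg Subtype.val hw⟩
  have hadd : ∀ v ∈ S, ∀ w ∈ S, v + w ∈ S := by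
    intro v hv w hw
    obtain ⟨v', hv', rfl⟩ := hmE v hv
    obtain ⟨w', hw', rfl⟩ := hmD w hw
    exact hc v' w' hv' hw'
  have hmul : ∀ (n : ℕ) (v : F), v ∈ S → n • v ∈ S := by
    intro n v hv
    induction n with
    | zero =>
      rw [zero_smul]
      exact hz
    | succ n ih =>
      rw [succ_nsmul]
      exact hadd _ ih _ hv
  obtain ⟨p, hp⟩ := CharP.exists F
  have hp0 : 0 < p := by
    rcases Nat.eq_zero_or_pos p with h3 | h3
    · subst h3
      haveI : CharZero F := CharP.charP_to_charZero F
      exact absurd (inferInstance : Infinite F) (not_infinite_iff_finite.2 inferInstance)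
    · exact h3
  have hneg : -u ∈ S := by
    have h3 := hmul (p - 1) u hDu
    have h4 : (p - 1) • u = -u := by
      rw [nsmul_eq_mul, Nat.cast_sub hp0, CharP.cast_eq_zero F p, Nat.cast_one, zero_sub, neg_mul,
        one_mul]
    rw [h4] at h3
    exact h3
  have h3 : φ (-u) = D * (-u) := hneg
  rw [h3, hDu]
  ring

/-- Additivity. -/
theorem add_of_eq (φ : F → F) (h0 : φ 0 = 0) (h1 : Function.Injective φ)
    (h2 : Function.Injective fun x => x - φ x)
    (h : ∀ x a, (φ x - φ a) ^ 2 = (x - a) * (φ (a + φ x - φ a) - φ a)) (x y : F) :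
    φ (x + y) = φ x + φ y := by
  by_cases h20 : (2 : F) = 0
  · -- characteristic two
    have hbij : Function.Bijective φ := Finite.injective_iff_bijective.1 h1
    have hbij2 : Function.Bijective fun x => x - φ x := Finite.injective_iff_bijective.1 h2
    let e := Equiv.ofBijective φ hbij
    let ρ : F → F := e.symm
    have hφρ : ∀ z, φ (ρ z) = z := fun z => e.apply_symm_apply z
    have hρφ : ∀ z, ρ (φ z) = z := fun z => e.symm_apply_apply z
    have hρ0 : ρ 0 = 0 := by
      have := hρφ 0
      rwa [h0] at this
    have hE0 : ∀ z, φ z * ρ z = z ^ 2 := by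
      intro z
      have h3 := h (ρ z) 0
      rw [h0, hφρ] at h3
      simp only [sub_zero, zero_add] at h3
      rw [h3]
      ring
    have hρadd : ∀ z c, ρ (z + c) = ρ z + ρ c := by
      intro z c
      by_cases hc : c = 0
      · rw [hc, hρ0, add_zero, add_zero]
      obtain ⟨a, ha⟩ := hbij2.2 c
      have ha' : a - φ a = c := ha
      have ha0 : a ≠ 0 := by
        intro h3
        rw [h3, h0, sub_zero] at ha'
        exact hc ha'.symm
      have hb0 : φ a ≠ 0 := by
        intro h3
        exact ha0 (h1 (h3.trans h0.symm))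
      have key : ∀ z, φ a * (ρ (z + c) + ρ z) = a * c := by
        intro z
        have e1 := h (ρ z) a
        have e2 := h (ρ (z + c)) a
        rw [hφρ] at e1 e2
        have g1 : a + z - φ a = z + c := by rw [← ha']; ring
        have g2 : a + (z + c) - φ a = z := by
          have : a + (z + c) - φ a = z + 2 * c := by rw [← ha']; ring
          rw [this, h20, zero_mul, add_zero]
        rw [g1] at e1
        rw [g2] at e2
        have f1 := hE0 (z + c)
        have f2 := hE0 z
        -- e1 : (z - b)^2 = (ρ z - a) * (φ (z+c) - b)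
        -- e2 : (z + c - b)^2 = (ρ (z+c) - a) * (φ z - b)
        have s1 : (z - φ a) ^ 2 * ρ (z + c) = (ρ z - a) * ((z + c) ^ 2 - φ a * ρ (z + c)) := by
          rw [e1, ← f1]; ring
        have s2 : (z + c - φ a) ^ 2 * ρ z = (ρ (z + c) - a) * (z ^ 2 - φ a * ρ z) := by
          rw [e2, ← f2]; ring
        have hac : a = φ a + c := by rw [← ha']; ring
        have h4 : c * (φ a * (ρ (z + c) + ρ z)) = c * (a * c) := by
          set r := ρ (z + c)
          set s := ρ z
          set b := φ a
          rw [hac] at s1 s2 ⊢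
          have h5 : c * (b * (r + s)) - c * ((b + c) * c) = 0 := by
            linear_combination s1 + s2 + (b * c * r + 2 * (b * c * s) - b * c ^ 2 - c ^ 3 + b * r * z -
              b * r * s - b * z ^ 2 - b * c * z - c * z ^ 2 - c ^ 2 * z + b * s * z) * h20
          exact sub_eq_zero.1 h5
        exact mul_left_cancel₀ hc h4
      have k1 := key z
      have k2 := key 0
      rw [zero_add, hρ0, add_zero] at k2
      have k3 : φ a * (ρ (z + c) + ρ z) = φ a * ρ c := k1.trans k2.symm
      have k4 := mul_left_cancel₀ hb0 k3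
      calc ρ (z + c) = (ρ (z + c) + ρ z) + ρ z - 2 * ρ z := by ring
        _ = ρ c + ρ z - 0 := by rw [k4, h20, zero_mul]
        _ = ρ z + ρ c := by ring
    apply e.symm.injective
    change ρ (φ (x + y)) = ρ (φ x + φ y)
    rw [hρφ, hρadd, hρφ, hρφ]
  · -- odd characteristic
    have hmid : ∀ a u, φ (a + u) + φ (a - u) = 2 * φ a := by
      intro a u
      have h3 := odd_of_eq (fun v => φ (a + v) - φ a) (by simp)
        (fun v w hvw => by
          have := h1 (sub_left_injective hvw)
          exact add_left_cancel this)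
        (fun v w hvw => by
          have h4 : (a + v) - φ (a + v) = (a + w) - φ (a + w) := by
            have : v - (φ (a + v) - φ a) = w - (φ (a + w) - φ a) := hvw
            linear_combination this
          exact add_left_cancel (h2 h4))
        (fun v w => by
          have h4 := h (a + v) (a + w)
          have h5 : a + (w + (φ (a + v) - φ a) - (φ (a + w) - φ a)) = a + w + φ (a + v) - φ (a + w) := by
            ring
          simp only [h5]
          linear_combination h4) u
      have h4 : φ (a + -u) - φ a = -(φ (a + u) - φ a) := h3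
      rw [← sub_eq_add_neg] at h4
      linear_combination h4
    have hhalf : ∀ x y, φ x + φ y = 2 * φ ((x + y) / 2) := by
      intro x y
      have h3 := hmid ((x + y) / 2) ((x - y) / 2)
      have h4 : (x + y) / 2 + (x - y) / 2 = x := by field_simp; ring
      have h5 : (x + y) / 2 - (x - y) / 2 = y := by field_simp; ring
      rwa [h4, h5] at h3
    have h3 := hhalf x y
    have h4 := hhalf (x + y) 0
    rw [h0, add_zero, add_zero] at h4
    rw [h4, h3]

theorem affine_of_eq (φ : F → F) (h1 : Function.Injective φ)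
    (h2 : Function.Injective fun x => x - φ x)
    (h : ∀ x a, (φ x - φ a) ^ 2 = (x - a) * (φ (a + φ x - φ a) - φ a)) :
    ∃ D, ∀ x, φ x = φ 0 + D * x := by
  set ψ : F → F := fun x => φ x - φ 0 with hψ
  have g0 : ψ 0 = 0 := by simp [hψ]
  have g1 : Function.Injective ψ := fun x y hxy => h1 (sub_left_injective hxy)
  have g2 : Function.Injective fun x => x - ψ x := by
    intro x y hxy
    apply h2
    have : x - (φ x - φ 0) = y - (φ y - φ 0) := hxy
    change x - φ x = y - φ y
    linear_combination this
  have g : ∀ x a, (ψ x - ψ a) ^ 2 = (x - a) * (ψ (a + ψ x - ψ a) - ψ a) := by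
    intro x a
    have h3 := h x a
    have h4 : a + (φ x - φ 0) - (φ a - φ 0) = a + φ x - φ a := by ring
    simp only [hψ, h4]
    linear_combination h3
  have hadd := add_of_eq ψ g0 g1 g2 g
  refine ⟨ψ 1, fun x => ?_⟩
  have hE0 : ∀ x, (ψ x) ^ 2 = x * ψ (ψ x) := by
    intro x
    have h3 := g x 0
    rw [g0] at h3
    simpa using h3
  have h3 : (x * ψ 1 - 1 * ψ x) ^ 2 = 0 := by
    have e1 := hE0 x
    have e2 := hE0 1
    have e3 := hE0 (x + 1)
    rw [hadd x 1, hadd (ψ x) (ψ 1)] at e3
    clear_value ψ
    linear_combination (x ^ 2 + x) * e2 + (1 + x) * e1 - x * e3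
  have h4 : x * ψ 1 - 1 * ψ x = 0 := by
    exact pow_eq_zero_iff (two_ne_zero) |>.1 h3
  have h5 : φ x - φ 0 = x * ψ 1 := by
    have : ψ x = x * ψ 1 := by linear_combination -h4
    exact this
  linear_combination h5

end Pool.Agent.H97.PS
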