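import Pool.Agent.H97.PS.NoLong

/-!
MP_325208 (helper97): the count (step B of /team-store/H97_325208.md).
-/

set_option autoImplicit false

open Configuration Finset H8.PS
open scoped Classical

namespace Pool.Agent.H97.PS

variable {P L : Type*} [Fintype P] [Fintype L] [Membership P L] [ProjectivePlane P L]

/-- **The count.** -/
theorem count' {B : Finset P} {q d m : ℕ} (h : PlaneData P L q d B) (hdm : d + m = q) (hd : 2 ≤ d)
    (hm' : 2 * m + 2 ≤ q) (hq : q < 3 * m) :
    (q : ℤ) * ((d : ℤ) * (q + 1) - 1) ^ 2 ≤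
      (((q : ℤ) + d) * (q + d - 1) - (d * (q + 1) - 1)) *
        ((d : ℤ) * (q + 1) - 1 + ((q : ℤ) ^ 2 + 1 - d) * (2 * d - q - 1)) := by
  have hm : 2 * m ≤ q := by omega
  set x : L → ℤ := fun l => ((on B l).card : ℤ) - 1 with hx
  set S : Finset L := Finset.univ.filter fun l : L => 2 ≤ (on B l).card with hS
  have hx0 : ∀ l : L, l ∉ S → x l = 0 := by
    intro l hl
    rw [hS, Finset.mem_filter] at hl
    have h1 := h.pos l
    have h2 : (on B l).card = 1 := by
      by_contra h3
      exact hl ⟨Finset.mem_univ _, by omega⟩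
    simp [hx, h2]
  have hcardB := h.card
  have hord := h.order
  -- first moment
  have hE : ∑ l ∈ S, x l = (d : ℤ) * (q + 1) - 1 := by
    rw [Finset.sum_subset (Finset.subset_univ S) fun l _ hl => hx0 l hl]
    have h1 := Pool.Agent.H27.PS.Cnt.sum_on (L := L) B
    have h2 : ∑ l : L, x l = ∑ l : L, ((on B l).card : ℤ) - Fintype.card L := by
      rw [hx, Finset.sum_sub_distrib]; simp
    have h3 : (∑ l : L, ((on B l).card : ℤ)) = (q + d) * (q + 1) := by
      have : ((∑ l : L, (on B l).card : ℕ) : ℤ) = ((B.card * (ProjectivePlane.order P L + 1) : ℕ) : ℤ) := by rw [h1]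
      rw [hcardB, hord] at this
      push_cast at this
      exact this
    have h4 : (Fintype.card L : ℤ) = q ^ 2 + q + 1 := by
      have := ProjectivePlane.card_lines P L
      rw [hord] at this
      exact_mod_cast this
    rw [h2, h3, h4]; ring
  -- second moment
  have hW : ∑ l ∈ S, x l ^ 2 = ((q : ℤ) + d) * (q + d - 1) - (d * (q + 1) - 1) := by
    have h1 := Pool.Agent.H27.PS.Cnt.sum_on_sq (L := L) B
    have h2 : ∀ l : L, (((on B l).card * ((on B l).card - 1) : ℕ) : ℤ) = x l ^ 2 + x l := by
      intro l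
      have h3 := h.pos l
      rw [Nat.cast_mul, Nat.cast_sub h3]
      simp only [hx]
      push_cast
      ring
    have h3 : ((∑ l : L, (on B l).card * ((on B l).card - 1) : ℕ) : ℤ) = ((q : ℤ) + d) * (q + d - 1) := by
      rw [h1, hcardB, Nat.cast_mul, Nat.cast_sub (by omega)]
      push_cast; ring
    rw [Nat.cast_sum, Finset.sum_congr rfl fun l _ => h2 l, Finset.sum_add_distrib] at h3
    rw [← hE, ← h3, Finset.sum_subset (Finset.subset_univ S) fun l _ hl => hx0 l hl,
      Finset.sum_subset (Finset.subset_univ S) fun l _ hl => by rw [hx0 l hl]; rfl]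
    ring
  -- secants
  have hsec : (S.card : ℤ) * q - ((d : ℤ) * (q + 1) - 1) ≤ ((q : ℤ) ^ 2 + 1 - d) * (2 * d - q - 1) := by
    have h1 := Pool.Agent.H27.PS.Cnt.sum_sec (L := L) B
    rw [hord] at h1
    have h2 : ∀ Z ∈ (Finset.univ \ B : Finset P),
        (Finset.univ.filter fun l : L => Z ∈ l ∧ 2 ≤ (on B l).card).card ≤ q + 1 - (2 * m + 2) := by
      intro Z hZ
      have hZB : Z ∉ B := (Finset.mem_sdiff.1 hZ).2
      have h3 := T_ge_two' h hdm hd hm hq hZB
      rw [Pool.Agent.H27.PS.Cnt.card_T B hZB] at h3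
      have h4 := Pool.Agent.H27.PS.Cnt.card_through (L := L) Z
      rw [hord] at h4
      have h5 : (Finset.univ.filter fun l : L => Z ∈ l).card =
          (Finset.univ.filter fun l : L => Z ∈ l ∧ (on B l).card = 1).card +
          (Finset.univ.filter fun l : L => Z ∈ l ∧ 2 ≤ (on B l).card).card := by
        rw [← Finset.card_union_of_disjoint]
        · congr 1
          ext l
          simp only [Finset.mem_filter, Finset.mem_univ, true_and, Finset.mem_union]
          constructor
          · intro hl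
            have := h.pos l
            rcases Nat.lt_or_ge (on B l).card 2 with h6 | h6
            · exact Or.inl ⟨hl, by omega⟩
            · exact Or.inr ⟨hl, h6⟩
          · rintro (h6 | h6)
            · exact h6.1
            · exact h6.1
        · rw [Finset.disjoint_left]
          intro l hl hl'
          simp only [Finset.mem_filter, Finset.mem_univ, true_and] at hl hl'
          omega
      omega
    have h3 := Finset.sum_le_sum h2
    rw [h1, Finset.sum_const, Finset.card_sdiff_of_subset (Finset.subset_univ B), Finset.card_univ,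
      ProjectivePlane.card_points P L, hord, hcardB, smul_eq_mul] at h3
    have h4 : ∀ l ∈ S, q + 1 - (on B l).card + (on B l).card = q + 1 := by
      intro l _
      have h5 := h.le l
      omega
    have h5 : ((∑ l ∈ S, (q + 1 - (on B l).card) : ℕ) : ℤ) = S.card * q - ((d : ℤ) * (q + 1) - 1) := by
      rw [← hE, Nat.cast_sum]
      have h6 : ∀ l ∈ S, ((q + 1 - (on B l).card : ℕ) : ℤ) = q - x l := by
        intro l hl
        have h7 := h4 l hl
        have h8 : (((q + 1 - (on B l).card) + (on B l).card : ℕ) : ℤ) = ((q + 1 : ℕ) : ℤ) := by rw [h7]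
        rw [Nat.cast_add] at h8
        push_cast at h8
        simp only [hx]
        linarith
      rw [Finset.sum_congr rfl h6, Finset.sum_sub_distrib, Finset.sum_const, nsmul_eq_mul]
    have h6 : ((∑ l ∈ S, (q + 1 - (on B l).card) : ℕ) : ℤ) ≤
        (((q ^ 2 + q + 1 - (q + d)) * (q + 1 - (2 * m + 2)) : ℕ) : ℤ) := by exact_mod_cast h3
    rw [h5] at h6
    refine h6.trans (le_of_eq ?_)
    have h7 : q + d ≤ q ^ 2 + q + 1 := by nlinarith
    rw [Nat.cast_mul, Nat.cast_sub h7, Nat.cast_sub (show 2 * m + 2 ≤ q + 1 by omega)]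
    push_cast
    have h8 : (m : ℤ) = q - d := by rw [← hdm]; push_cast; ring
    rw [h8]; ring
  have hcs := sq_sum_le_card_mul_sum_sq (s := S) (f := x)
  rw [hE, hW] at hcs
  have hW0 : 0 ≤ ((q : ℤ) + d) * (q + d - 1) - (d * (q + 1) - 1) := by
    rw [← hW]; exact Finset.sum_nonneg fun l _ => sq_nonneg _
  set W' := ((q : ℤ) + d) * (q + d - 1) - (d * (q + 1) - 1)
  set E := (d : ℤ) * (q + 1) - 1
  set K := ((q : ℤ) ^ 2 + 1 - d) * (2 * d - q - 1)
  calc (q : ℤ) * E ^ 2 ≤ q * (S.card * W') := mul_le_mul_of_nonneg_left hcs (by positivity)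
    _ = W' * (S.card * q) := by ring
    _ ≤ W' * (E + K) := mul_le_mul_of_nonneg_left (by linarith) hW0

end Pool.Agent.H97.PS
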