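import Pool.Agent.H97.PS.Pair
import Pool.Agent.H25.PS.Four

/-!
MP_325208 (helper97): Lemma A and Lemma B.
-/

set_option autoImplicit false

open Configuration Finset H8.PS
open scoped Classical

namespace Pool.Agent.H97.PS

variable {P L : Type*} [Fintype P] [Fintype L] [Membership P L] [ProjectivePlane P L]

/-- **Lemma A.** -/
theorem no_long' {B : Finset P} {q d m : ℕ} (h : PlaneData P L q d B) (hdm : d + m = q) (hd : 2 ≤ d)
    (hm : 2 * m ≤ q) (hq : q < 3 * m) (t : L) : (on B t).card + 2 * m ≤ q + 1 := by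
  by_contra hcon
  have ht : q + 2 ≤ (on B t).card + 2 * m := by omega
  have ht2 : 2 ≤ (on B t).card := by omega
  have hd' := h.le t
  -- two points of `t` outside `B`
  have hsplit : (Finset.univ.filter fun p : P => p ∈ t).card =
      (on B t).card + ((Finset.univ.filter fun p : P => p ∈ t) \ on B t).card := by
    have hsub : on B t ⊆ Finset.univ.filter fun p : P => p ∈ t := by
      intro p hp
      rw [on, Finset.mem_filter] at hp
      simpa using hp.2
    rw [Finset.card_sdiff_of_subset hsub]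
    have := Finset.card_le_card hsub
    omega
  rw [Pool.Agent.H27.PS.Cnt.card_on, h.order] at hsplit
  have h1lt : 1 < ((Finset.univ.filter fun p : P => p ∈ t) \ on B t).card := by omega
  obtain ⟨P₁, hP₁, P₂, hP₂, h12⟩ := Finset.one_lt_card.1 h1lt
  have hmem : ∀ p : P, p ∈ (Finset.univ.filter fun p : P => p ∈ t) \ on B t → p ∈ t ∧ p ∉ B := by
    intro p hp
    rw [Finset.mem_sdiff, Finset.mem_filter, on, Finset.mem_filter] at hp
    exact ⟨hp.1.2, fun hB => hp.2 ⟨hB, hp.1.2⟩⟩
  obtain ⟨h1, h1B⟩ := hmem P₁ hP₁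
  obtain ⟨h2, h2B⟩ := hmem P₂ hP₂
  have hT1 := T_ge' h hdm ht2 h1 h1B
  have hT2 := T_ge' h hdm ht2 h2 h2B
  set A := B.filter (· ∉ t) with hA
  have hAcard : (on B t).card + A.card = B.card := by
    rw [on, hA]
    exact Finset.card_filter_add_card_filter_not _
  have hfour := Pool.Agent.H25.PS.exists_four (S := T L B P₁) (G := fun l : L => m + 1 ≤ (A.filter (· ∈ l)).card) (by omega) (by
    intro a₁ ha1
    have hS2 : d + 1 ≤ ((T L B P₂).erase a₁).card := by
      have := Finset.pred_card_le_card_erase (s := T L B P₂) (a := a₁)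
      omega
    obtain ⟨a₂, ha2⟩ := Finset.card_pos.1 (lt_of_lt_of_le (Nat.succ_pos d) hS2)
    rw [Finset.mem_erase] at ha2
    obtain ⟨l, hl1, hl2, hl3⟩ := long_of_pair' h hdm ht ht2 h1 h2 h1B h2B h12 ha1 ha2.2 (Ne.symm ha2.1)
    have hex : ∃ a₃ ∈ (T L B P₂).erase a₁, a₃ ∉ l := by
      by_contra hall
      push Not at hall
      have hsub : insert a₁ ((T L B P₂).erase a₁) ⊆ on B l := by
        intro x hx
        rw [Finset.mem_insert] at hx
        rw [on, Finset.mem_filter]
        rcases hx with rfl | hx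
        · exact ⟨T_subset B P₁ ha1, hl1⟩
        · exact ⟨T_subset B P₂ (Finset.mem_of_mem_erase hx), hall x hx⟩
      have h3 := Finset.card_le_card hsub
      rw [Finset.card_insert_of_notMem (Finset.notMem_erase _ _)] at h3
      have h4 := h.le l
      omega
    obtain ⟨a₃, ha3, ha3l⟩ := hex
    rw [Finset.mem_erase] at ha3
    obtain ⟨l', hl1', hl2', hl3'⟩ := long_of_pair' h hdm ht ht2 h1 h2 h1B h2B h12 ha1 ha3.2 (Ne.symm ha3.1)
    exact ⟨l, l', hl3, hl3', fun he => ha3l (he ▸ hl2'), hl1, hl1'⟩)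
  obtain ⟨l₁, l₂, l₃, l₄, g1, g2, g3, g4, n12, n13, n14, n23, n24, n34⟩ := hfour
  have h4 := Pool.Agent.H25.PS.card_four n12 n13 n14 n23 n24 n34 g1 g2 g3 g4
  have h5 := h.card
  omega

/-- **Lemma B.** -/
theorem T_ge_two' {B : Finset P} {q d m : ℕ} (h : PlaneData P L q d B) (hdm : d + m = q) (hd : 2 ≤ d)
    (hm : 2 * m ≤ q) (hq : q < 3 * m) {Z : P} (hZ : Z ∉ B) : 2 * m + 2 ≤ (T L B Z).card := by
  by_contra hcon
  obtain ⟨l, hl⟩ := h.cb0 Z hZ (by omega)
  have h1 : T L B Z ⊆ on B l := by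
    intro x hx
    rw [on, Finset.mem_filter]
    exact ⟨T_subset B Z hx, hl x hx⟩
  have h2 := Finset.card_le_card h1
  have h3 := h.cb0' Z hZ
  have h4 := no_long' h hdm hd hm hq l
  omega

end Pool.Agent.H97.PS
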