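import Pool.Agent.H97.PS.Tge

/-!
MP_325208 (helper97): steps (a) and (c) of Lemma A.
-/

set_option autoImplicit false

open Configuration Finset H8.PS
open scoped Classical

namespace Pool.Agent.H97.PS

variable {P L : Type*} [Fintype P] [Fintype L] [Membership P L] [ProjectivePlane P L]

omit [Fintype P] [Fintype L] [ProjectivePlane P L] in
theorem mem_T {B : Finset P} {Z X : P} : X ∈ T L B Z ↔ X ∈ B ∧ ∀ l : L, Z ∈ l → X ∈ l → ∀ Y ∈ B, Y ∈ l → Y = X := by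
  unfold T
  exact Finset.mem_filter

omit [Fintype P] [Fintype L] [ProjectivePlane P L] in
theorem T_subset (B : Finset P) (Z : P) : T L B Z ⊆ B := fun _ hx => (mem_T.1 hx).1

/-- step (a) -/
theorem T_off_le' {B : Finset P} {q d : ℕ} (h : PlaneData P L q d B) {t : L} {Z : P} (hZt : Z ∉ t)
    (hZ : Z ∉ B) : ((T L B Z).filter (· ∉ t)).card + (on B t).card ≤ q + 1 := by
  have hex : ∀ X : P, ∃ l : L, Z ∈ l ∧ (X ≠ Z → X ∈ l) := by
    intro X
    by_cases hXZ : X = Z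
    · obtain ⟨l, hl⟩ : (Finset.univ.filter fun l : L => Z ∈ l).Nonempty := by
        rw [← Finset.card_pos, Pool.Agent.H27.PS.Cnt.card_through]; omega
      exact ⟨l, by simpa using hl, fun h => absurd hXZ h⟩
    · obtain ⟨h1, h2⟩ := HasLines.mkLine_ax (L := L) (fun h => hXZ h : X ≠ Z)
      exact ⟨_, h2, fun _ => h1⟩
  choose ln hln1 hln2 using hex
  have hne : ∀ X : P, ln X ≠ t := fun X he => hZt (he ▸ hln1 X)
  let f : P → P := fun X => HasPoints.mkPoint (hne X)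
  have hf1 : ∀ X, f X ∈ ln X := fun X => (HasPoints.mkPoint_ax (hne X)).1
  have hf2 : ∀ X, f X ∈ t := fun X => (HasPoints.mkPoint_ax (hne X)).2
  have hXZ : ∀ X ∈ T L B Z, X ≠ Z := fun X hX he => hZ (he ▸ (mem_T.1 hX).1)
  have hcard : ((T L B Z).filter (· ∉ t)).card ≤ ((Finset.univ.filter fun p : P => p ∈ t) \ on B t).card := by
    refine Finset.card_le_card_of_injOn f ?_ ?_
    · intro X hX
      rw [Finset.mem_coe, Finset.mem_filter] at hX
      rw [Finset.mem_coe, Finset.mem_sdiff, Finset.mem_filter]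
      refine ⟨⟨Finset.mem_univ _, hf2 X⟩, fun hB => ?_⟩
      rw [on, Finset.mem_filter] at hB
      have := (mem_T.1 hX.1).2 (ln X) (hln1 X) (hln2 X (hXZ X hX.1)) (f X) hB.1 (hf1 X)
      exact hX.2 (this ▸ hf2 X)
    · intro X hX Y hY hXY
      rw [Finset.mem_coe, Finset.mem_filter] at hX hY
      have hfZ : f X ≠ Z := fun he => hZt (he ▸ hf2 X)
      have hl : ln X = ln Y := by
        rcases Nondegenerate.eq_or_eq (hf1 X) (hln1 X) (by rw [hXY]; exact hf1 Y) (hln1 Y) with h1 | h1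
        · exact absurd h1 hfZ
        · exact h1
      have h2 : Y ∈ ln X := by rw [hl]; exact hln2 Y (hXZ Y hY.1)
      exact ((mem_T.1 hX.1).2 (ln X) (hln1 X) (hln2 X (hXZ X hX.1)) Y (mem_T.1 hY.1).1 h2).symm
  have hsub : on B t ⊆ Finset.univ.filter fun p : P => p ∈ t := by
    intro p hp
    rw [on, Finset.mem_filter] at hp
    simpa using hp.2
  rw [Finset.card_sdiff_of_subset hsub, Pool.Agent.H27.PS.Cnt.card_on, h.order] at hcard
  have h3 := Finset.card_le_card hsub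
  rw [Pool.Agent.H27.PS.Cnt.card_on, h.order] at h3
  omega

/-- step (c), first part: the line through two contact points is long -/
theorem long_of_pair' {B : Finset P} {q d m : ℕ} (h : PlaneData P L q d B) (hdm : d + m = q) {t : L}
    (ht : q + 2 ≤ (on B t).card + 2 * m) (ht2 : 2 ≤ (on B t).card) {P₁ P₂ a₁ a₂ : P} (h1 : P₁ ∈ t) (h2 : P₂ ∈ t)
    (h1B : P₁ ∉ B) (h2B : P₂ ∉ B) (h12 : P₁ ≠ P₂) (ha1 : a₁ ∈ T L B P₁) (ha2 : a₂ ∈ T L B P₂) (ha : a₁ ≠ a₂) :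
    ∃ l : L, a₁ ∈ l ∧ a₂ ∈ l ∧ m + 1 ≤ ((B.filter (· ∉ t)).filter (· ∈ l)).card := by
  -- contact points are not on `t`
  have hoff : ∀ {Q a : P}, Q ∈ t → a ∈ T L B Q → a ∉ t := by
    intro Q a hQ ha hat
    obtain ⟨x, hx, y, hy, hxy⟩ := Finset.one_lt_card.1 (show 1 < (on B t).card by omega)
    rw [on, Finset.mem_filter] at hx hy
    have e1 := (mem_T.1 ha).2 t hQ hat x hx.1 hx.2
    have e2 := (mem_T.1 ha).2 t hQ hat y hy.1 hy.2
    exact hxy (e1.trans e2.symm)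
  have ha1t := hoff h1 ha1
  have ha2t := hoff h2 ha2
  have ha1B := (mem_T.1 ha1).1
  have ha2B := (mem_T.1 ha2).1
  have n1 : P₁ ≠ a₁ := fun he => h1B (he ▸ ha1B)
  have n2 : P₂ ≠ a₂ := fun he => h2B (he ▸ ha2B)
  obtain ⟨l₁, hl1P, hl1a⟩ : ∃ l : L, P₁ ∈ l ∧ a₁ ∈ l := ⟨_, HasLines.mkLine_ax n1⟩
  obtain ⟨l₂, hl2P, hl2a⟩ : ∃ l : L, P₂ ∈ l ∧ a₂ ∈ l := ⟨_, HasLines.mkLine_ax n2⟩
  have hl1t : l₁ ≠ t := fun he => ha1t (he ▸ hl1a)
  have hl2t : l₂ ≠ t := fun he => ha2t (he ▸ hl2a)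
  have hl12 : l₁ ≠ l₂ := by
    rintro rfl
    rcases Nondegenerate.eq_or_eq hl1P hl2P h1 h2 with e | e
    · exact h12 e
    · exact hl1t e
  obtain ⟨Z, hZ1, hZ2⟩ : ∃ Z : P, Z ∈ l₁ ∧ Z ∈ l₂ := ⟨_, HasPoints.mkPoint_ax hl12⟩
  have hZt : Z ∉ t := by
    intro hZ
    have e1 : Z = P₁ := by
      rcases Nondegenerate.eq_or_eq hZ1 hl1P hZ h1 with e | e
      · exact e
      · exact absurd e hl1t
    have e2 : Z = P₂ := by
      rcases Nondegenerate.eq_or_eq hZ2 hl2P hZ h2 with e | e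
      · exact e
      · exact absurd e hl2t
    exact h12 (e1.symm.trans e2)
  have hZB : Z ∉ B := by
    intro hZ
    have e1 := (mem_T.1 ha1).2 l₁ hl1P hl1a Z hZ hZ1
    have e2 := (mem_T.1 ha2).2 l₂ hl2P hl2a Z hZ hZ2
    exact ha (e1.symm.trans e2)
  have key : ∀ {Q a : P} {l' : L}, a ∈ T L B Q → Q ∈ l' → a ∈ l' → Z ∈ l' → a ∈ T L B Z := by
    intro Q a l' ha' hQ hal hZl
    have haB := (mem_T.1 ha').1
    refine mem_T.2 ⟨haB, fun k hk hak Y hY hYk => ?_⟩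
    have hkl : k = l' := by
      rcases Nondegenerate.eq_or_eq hk hak hZl hal with e | e
      · exact absurd (e ▸ haB) hZB
      · exact e
    exact (mem_T.1 ha').2 l' hQ hal Y hY (hkl ▸ hYk)
  have c1 : a₁ ∈ (T L B Z).filter fun X => X ∉ t := Finset.mem_filter.2 ⟨key ha1 hl1P hl1a hZ1, ha1t⟩
  have c2 : a₂ ∈ (T L B Z).filter fun X => X ∉ t := Finset.mem_filter.2 ⟨key ha2 hl2P hl2a hZ2, ha2t⟩
  have hle := T_off_le' h hZt hZB
  have hqd : q - d = m := by omega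
  have hge := h.cb1 Z hZB t ⟨a₁, c1⟩
  obtain ⟨l, hl⟩ := h.cb3 Z hZB t (by rw [hqd]; omega)
  refine ⟨l, hl a₁ (Finset.mem_filter.1 c1).1 ha1t, hl a₂ (Finset.mem_filter.1 c2).1 ha2t, ?_⟩
  rw [hqd] at hge
  refine hge.trans (Finset.card_le_card fun X hX => ?_)
  rw [Finset.mem_filter] at hX
  rw [Finset.mem_filter, Finset.mem_filter]
  exact ⟨⟨T_subset B Z hX.1, hX.2⟩, hl X hX.1 hX.2⟩

end Pool.Agent.H97.PS
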