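import Pool.Agent.H97.PS.Count
import Pool.Agent.H33.PS.Arith

/-!
MP_325208 (helper97): the planar theorem of stage 1.
-/

set_option autoImplicit false

open Configuration Finset H8.PS
open scoped Classical

namespace Pool.Agent.H97.PS

variable {P L : Type*} [Fintype P] [Fintype L] [Membership P L] [ProjectivePlane P L]

/-- **The planar theorem.** -/
theorem plane {B : Finset P} {q d : ℕ} (h : PlaneData P L q d B) (hq2 : 2 ≤ q) (hdq : d ≤ q) (hb : q + 2 ≤ 2 * d) :
    q ^ 3 < 2 * d ^ 3 + d * q ^ 2 := by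
  obtain ⟨m, hm⟩ : ∃ m, d + m = q := ⟨q - d, by omega⟩
  have := Pool.Agent.H33.PS.arith hq2 hm hb fun h3 => count' h hm (by omega) (by omega) h3
  exact_mod_cast this

end Pool.Agent.H97.PS
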