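import Pool.Agent.H27.PS.Cnt27

/-!
MP_325208 (helper97): step (b) of Lemma A.
-/

set_option autoImplicit false

open Configuration Finset H8.PS
open scoped Classical

namespace Pool.Agent.H97.PS

variable {P L : Type*} [Fintype P] [Fintype L] [Membership P L] [ProjectivePlane P L]

/-- step (b): many tangents through the points outside `B` of a line with many points -/
theorem T_ge' {B : Finset P} {q d m : ℕ} (h : PlaneData P L q d B) (hdm : d + m = q) {t : L}
    (ht : 2 ≤ (on B t).card) {Z : P} (hZt : Z ∈ t) (hZ : Z ∉ B) : m + (on B t).card ≤ (T L B Z).card := by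
  rw [Pool.Agent.H27.PS.Cnt.card_T B hZ]
  have h1 := Pool.Agent.H27.PS.Cnt.sum_through (L := L) B hZ
  have h2 := Pool.Agent.H27.PS.Cnt.card_through (L := L) Z
  rw [h.card] at h1
  rw [h.order] at h2
  have htm : t ∈ Finset.univ.filter (fun l : L => Z ∈ l) := by simpa using hZt
  rw [← Finset.add_sum_erase _ _ htm] at h1
  have h3 : ((Finset.univ.filter (fun l : L => Z ∈ l)).erase t).card = q := by
    rw [Finset.card_erase_of_mem htm, h2]; rfl
  have h4 : ∑ l ∈ (Finset.univ.filter (fun l : L => Z ∈ l)).erase t, 2 ≤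
      ∑ l ∈ (Finset.univ.filter (fun l : L => Z ∈ l)).erase t,
        ((on B l).card + if (on B l).card = 1 then 1 else 0) := by
    refine Finset.sum_le_sum fun l _ => ?_
    have := h.pos l
    split_ifs <;> omega
  rw [Finset.sum_add_distrib, Finset.sum_const, h3, smul_eq_mul] at h4
  have h5 : ∑ l ∈ (Finset.univ.filter (fun l : L => Z ∈ l)).erase t, (if (on B l).card = 1 then 1 else 0) ≤
      (Finset.univ.filter fun l : L => Z ∈ l ∧ (on B l).card = 1).card := by
    rw [← Finset.card_filter]
    refine Finset.card_le_card fun l hl => ?_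
    rw [Finset.mem_filter, Finset.mem_erase, Finset.mem_filter] at hl
    rw [Finset.mem_filter]
    exact ⟨Finset.mem_univ _, hl.1.2.2, hl.2⟩
  omega

end Pool.Agent.H97.PS
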